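import Pool.Agent.Helper50.CSB.Defs

/-!
# The polynomials of lists of blocks (piece P1)
-/

namespace H50R

open H45C Equiv MvPolynomial

variable {m : ℕ}

/-- `pact_hz`; induction on the length of the list -/
theorem pact_pb (k : Fin m) (B : List (ℕ × ℕ)) (hB : ∀ b ∈ B, b.1 ≠ (k : ℕ)) :
    pact (sg k) (pb m B) = pb m B := by
  match B, hB with
  | [], _ => rw [pb_nil, map_one]
  | [b], hB =>
    rw [pb_single]
    exact pact_hz k _ _ (fun h => hB b (by simp) (by omega))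
  | b :: c :: L, hB =>
    have h1 : pact (sg k) (pb m (c :: L)) = pb m (c :: L) :=
      pact_pb k (c :: L) fun x hx => hB x (List.mem_cons_of_mem _ hx)
    have h2 : pact (sg k) (pb m ((b.1, b.2 + c.2) :: L)) = pb m ((b.1, b.2 + c.2) :: L) := by
      refine pact_pb k ((b.1, b.2 + c.2) :: L) fun x hx => ?_
      rcases List.mem_cons.1 hx with rfl | hx
      · exact hB b (by simp)
      · exact hB x (by simp [hx])
    rw [pb_cons, map_sub, map_mul, h1, pact_hz k _ _ (fun h => hB b (by simp) (by omega))]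
    split_ifs with hc
    · rw [h2]
    · rw [map_zero]
termination_by B.length

theorem dd1_pb_of_ne (k : Fin m) (B : List (ℕ × ℕ)) (hB : ∀ b ∈ B, b.1 ≠ (k : ℕ)) :
    dd1 k (pb m B) = 0 := dd1_eq_zero_of_inv k _ (pact_pb k B hB)

/-- the first block -/
theorem dd1_pb_head (k : Fin m) (C : List (ℕ × ℕ)) (a : ℕ) (hC : ∀ c ∈ C, c.1 ≠ (k : ℕ)) :
    dd1 k (pb m (((k : ℕ), a + 1) :: C)) = pb m (((k : ℕ) + 1, a) :: C) := by
  induction C generalizing a with
  | nil =>
    rw [pb_single, pb_single]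
    have h := dd1_hz k ((a + 1 : ℕ) : ℤ)
    rw [show (((a + 1 : ℕ) : ℤ) - 1) = (a : ℤ) by push_cast; ring] at h
    exact h
  | cons c C ih =>
    have h := dd1_hz k ((a + 1 : ℕ) : ℤ)
    rw [show (((a + 1 : ℕ) : ℤ) - 1) = (a : ℤ) by push_cast; ring] at h
    have hz0 : dd1 k (pb m (c :: C)) = 0 := dd1_pb_of_ne k _ hC
    rw [pb_cons, pb_cons, dd1_sub, dd1_mul, hz0, mul_zero, add_zero]
    change dd1 k (hz m ((k : ℕ) + 1) ((a + 1 : ℕ) : ℤ)) * pb m (c :: C) -
        dd1 k (if c.1 = (k : ℕ) + (a + 1) then pb m (((k : ℕ), a + 1 + c.2) :: C) else 0) =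
      hz m ((k : ℕ) + 1 + 1) (a : ℤ) * pb m (c :: C) -
        if c.1 = (k : ℕ) + 1 + a then pb m (((k : ℕ) + 1, a + c.2) :: C) else 0
    rw [h]
    have hi := ih (a + c.2) fun x hx => hC x (List.mem_cons_of_mem _ hx)
    rw [show a + c.2 + 1 = a + 1 + c.2 by ring] at hi
    by_cases hc : c.1 = (k : ℕ) + (a + 1)
    · rw [if_pos hc, if_pos (by omega), hi]
    · rw [if_neg hc, if_neg (by omega), dd1_zero]

/-- `k` is the start of a block -/
theorem dd1_pb_gen (k : Fin m) (B C : List (ℕ × ℕ)) (a : ℕ)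
    (hB : ∀ b ∈ B, b.1 < (k : ℕ) ∧ b.1 + b.2 ≤ (k : ℕ)) (hC : ∀ c ∈ C, c.1 ≠ (k : ℕ)) :
    dd1 k (pb m (B ++ ((k : ℕ), a + 1) :: C)) = pb m (B ++ ((k : ℕ) + 1, a) :: C) := by
  match B, hB with
  | [], _ => exact dd1_pb_head k C a hC
  | [b], hB =>
    obtain ⟨h1, h2⟩ := hB b (by simp)
    have hinv : pact (sg k) (hz m (b.1 + 1) (b.2 : ℤ)) = hz m (b.1 + 1) (b.2 : ℤ) :=
      pact_hz k _ _ (by omega)
    have h3 : dd1 k (pb m ((b.1, b.2 + (a + 1)) :: C)) = 0 := by
      refine dd1_pb_of_ne k _ fun x hx => ?_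
      rcases List.mem_cons.1 hx with rfl | hx
      · exact h1.ne
      · exact hC x hx
    change dd1 k (pb m (b :: ((k : ℕ), a + 1) :: C)) = pb m (b :: ((k : ℕ) + 1, a) :: C)
    rw [pb_cons, pb_cons, dd1_sub, dd1_mul_of_inv k _ _ hinv, dd1_pb_head k C a hC]
    have h4 : ¬ ((((k : ℕ) + 1, a) : ℕ × ℕ).1 = b.1 + b.2) := by
      change ¬ ((k : ℕ) + 1 = b.1 + b.2)
      omega
    rw [if_neg h4]
    by_cases hc : (((k : ℕ), a + 1) : ℕ × ℕ).1 = b.1 + b.2
    · rw [if_pos hc]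
      change _ - dd1 k (pb m ((b.1, b.2 + (a + 1)) :: C)) = _
      rw [h3]
    · rw [if_neg hc, dd1_zero]
  | b :: b' :: B, hB =>
    obtain ⟨h1, h2⟩ := hB b (by simp)
    obtain ⟨h1', h2'⟩ := hB b' (by simp)
    have hinv : pact (sg k) (hz m (b.1 + 1) (b.2 : ℤ)) = hz m (b.1 + 1) (b.2 : ℤ) :=
      pact_hz k _ _ (by omega)
    have i1 := dd1_pb_gen k (b' :: B) C a (fun x hx => hB x (List.mem_cons_of_mem _ hx)) hC
    change dd1 k (pb m (b :: b' :: (B ++ ((k : ℕ), a + 1) :: C))) =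
      pb m (b :: b' :: (B ++ ((k : ℕ) + 1, a) :: C))
    rw [pb_cons, pb_cons, dd1_sub, dd1_mul_of_inv k _ _ hinv]
    change _ * dd1 k (pb m (b' :: B ++ ((k : ℕ), a + 1) :: C)) - _ = _
    rw [i1]
    by_cases hc : b'.1 = b.1 + b.2
    · rw [if_pos hc, if_pos hc]
      have i2 := dd1_pb_gen k ((b.1, b.2 + b'.2) :: B) C a (fun x hx => by
        rcases List.mem_cons.1 hx with rfl | hx
        · exact ⟨h1, by change b.1 + (b.2 + b'.2) ≤ k; omega⟩
        · exact hB x (by simp [hx])) hC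
      change _ - dd1 k (pb m ((b.1, b.2 + b'.2) :: B ++ ((k : ℕ), a + 1) :: C)) = _
      rw [i2]
      rfl
    · rw [if_neg hc, if_neg hc, dd1_zero]
      rfl
termination_by B.length

/-- the tail of a good list -/
theorem Good.tail {b : ℕ × ℕ} {L : List (ℕ × ℕ)} (h : Good m (b :: L)) : Good m L := by
  cases L with
  | nil => trivial
  | cons c L => exact h.2.2

theorem Good.pos {b : ℕ × ℕ} {L : List (ℕ × ℕ)} (h : Good m (b :: L)) : 1 ≤ b.2 := by
  cases L with
  | nil => exact h.1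
  | cons c L => exact h.1

theorem Good.le {b : ℕ × ℕ} {L : List (ℕ × ℕ)} (h : Good m (b :: L)) :
    ∀ c ∈ L, b.1 + b.2 ≤ c.1 := by
  induction L generalizing b with
  | nil => intro c hc; simp at hc
  | cons d L ih =>
    intro c hc
    rcases List.mem_cons.1 hc with rfl | hc
    · exact h.2.1
    · have h1 := ih h.2.2 c hc
      have h2 := h.2.1
      omega

theorem Good.split {B C : List (ℕ × ℕ)} {x : ℕ × ℕ} (h : Good m (B ++ x :: C)) :
    (∀ b ∈ B, 1 ≤ b.2 ∧ b.1 + b.2 ≤ x.1) ∧ ∀ c ∈ C, x.1 + x.2 ≤ c.1 := by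
  induction B with
  | nil => exact ⟨fun b hb => by simp at hb, h.le⟩
  | cons b B ih =>
    have h1 : Good m (b :: (B ++ x :: C)) := h
    obtain ⟨i1, i2⟩ := ih h1.tail
    refine ⟨fun c hc => ?_, i2⟩
    rcases List.mem_cons.1 hc with rfl | hc
    · exact ⟨h1.pos, h1.le x (by simp)⟩
    · exact i1 c hc

/-- `k` is the start of a block of length at least `2` -/
theorem dd1_pb_two (k : Fin m) (B C : List (ℕ × ℕ)) (a : ℕ)
    (h : Good m (B ++ ((k : ℕ), a + 2) :: C)) :
    dd1 k (pb m (B ++ ((k : ℕ), a + 2) :: C)) = pb m (B ++ ((k : ℕ) + 1, a + 1) :: C) := by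
  obtain ⟨h1, h2⟩ := h.split
  refine dd1_pb_gen k B C (a + 1) (fun b hb => ?_) (fun c hc => ?_)
  · obtain ⟨h3, h4⟩ := h1 b hb
    change b.1 + b.2 ≤ (k : ℕ) at h4
    exact ⟨by omega, h4⟩
  · have h5 := h2 c hc
    change (k : ℕ) + (a + 2) ≤ c.1 at h5
    omega

/-- an empty block before an adjacent one -/
theorem pb_zero_adj (x b : ℕ) (B C : List (ℕ × ℕ)) (hB : ∀ c ∈ B, c.1 + c.2 ≠ x) :
    pb m (B ++ (x, 0) :: (x, b) :: C) = 0 := by
  match B, hB with
  | [], _ =>
    change pb m ((x, 0) :: (x, b) :: C) = 0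
    rw [pb_cons]
    change hz m (x + 1) ((0 : ℕ) : ℤ) * pb m ((x, b) :: C) -
      (if x = x + 0 then pb m ((x, 0 + b) :: C) else 0) = 0
    rw [Nat.cast_zero, hz_zero_right, one_mul, if_pos (by omega), zero_add, sub_self]
  | [c], hB =>
    have i1 := pb_zero_adj x b [] C (by simp)
    change pb m ((x, 0) :: (x, b) :: C) = 0 at i1
    change pb m (c :: (x, 0) :: (x, b) :: C) = 0
    rw [pb_cons, i1, mul_zero, if_neg, sub_zero]
    exact fun h => hB c (by simp) h.symm
  | c :: c' :: B, hB =>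
    have i1 := pb_zero_adj x b (c' :: B) C
      (fun y hy => hB y (List.mem_cons_of_mem _ hy))
    change pb m (c :: c' :: (B ++ (x, 0) :: (x, b) :: C)) = 0
    rw [pb_cons]
    change _ * pb m (c' :: B ++ (x, 0) :: (x, b) :: C) - _ = 0
    rw [i1, mul_zero]
    by_cases hc : c'.1 = c.1 + c.2
    · have i2 := pb_zero_adj x b ((c.1, c.2 + c'.2) :: B) C (fun y hy => by
        rcases List.mem_cons.1 hy with rfl | hy
        · change c.1 + (c.2 + c'.2) ≠ x
          have := hB c' (by simp)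
          omega
        · exact hB y (by simp [hy]))
      rw [if_pos hc]
      change 0 - pb m ((c.1, c.2 + c'.2) :: B ++ (x, 0) :: (x, b) :: C) = 0
      rw [i2, sub_zero]
    · rw [if_neg hc, sub_zero]
termination_by B.length

/-- an empty block which is not adjacent to others -/
theorem pb_zero_gap (k : ℕ) (B C : List (ℕ × ℕ)) (hB : ∀ b ∈ B, b.1 + b.2 ≤ k)
    (hC : ∀ c ∈ C, k + 1 < c.1) : pb m (B ++ (k + 1, 0) :: C) = pb m (B ++ C) := by
  have h0 : pb m ((k + 1, 0) :: C) = pb m C := by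
    cases C with
    | nil =>
      rw [pb_single, pb_nil]
      change hz m (k + 1 + 1) ((0 : ℕ) : ℤ) = 1
      rw [Nat.cast_zero, hz_zero_right]
    | cons c C =>
      rw [pb_cons]
      change hz m (k + 1 + 1) ((0 : ℕ) : ℤ) * pb m (c :: C) - _ = _
      rw [Nat.cast_zero, hz_zero_right, one_mul, if_neg, sub_zero]
      have := hC c (by simp)
      change ¬ c.1 = k + 1 + 0
      omega
  match B, hB with
  | [], _ => exact h0
  | [b], hB =>
    have hb := hB b (by simp)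
    change pb m (b :: (k + 1, 0) :: C) = pb m (b :: C)
    rw [pb_cons, h0, if_neg (by change ¬ k + 1 = b.1 + b.2; omega), sub_zero]
    cases C with
    | nil => rw [pb_nil, mul_one, pb_single]
    | cons c C =>
      rw [pb_cons, if_neg, sub_zero]
      have := hC c (by simp)
      omega
  | b :: b' :: B, hB =>
    have i1 := pb_zero_gap k (b' :: B) C (fun y hy => hB y (List.mem_cons_of_mem _ hy)) hC
    change pb m (b :: b' :: (B ++ (k + 1, 0) :: C)) = pb m (b :: b' :: (B ++ C))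
    rw [pb_cons, pb_cons]
    change _ * pb m (b' :: B ++ (k + 1, 0) :: C) - _ = _ * pb m (b' :: B ++ C) - _
    rw [i1]
    by_cases hc : b'.1 = b.1 + b.2
    · have i2 := pb_zero_gap k ((b.1, b.2 + b'.2) :: B) C (fun y hy => by
        rcases List.mem_cons.1 hy with rfl | hy
        · change b.1 + (b.2 + b'.2) ≤ k
          have := hB b' (by simp)
          omega
        · exact hB y (by simp [hy])) hC
      rw [if_pos hc, if_pos hc]
      change _ - pb m ((b.1, b.2 + b'.2) :: B ++ (k + 1, 0) :: C) =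
        _ - pb m ((b.1, b.2 + b'.2) :: B ++ C)
      rw [i2]
    · rw [if_neg hc, if_neg hc]
termination_by B.length

/-- `k` is a block of length `1`, and the next block is adjacent -/
theorem dd1_pb_one_adj (k : Fin m) (B C : List (ℕ × ℕ)) (b : ℕ)
    (h : Good m (B ++ ((k : ℕ), 1) :: ((k : ℕ) + 1, b) :: C)) :
    dd1 k (pb m (B ++ ((k : ℕ), 1) :: ((k : ℕ) + 1, b) :: C)) = 0 := by
  obtain ⟨h1, h2⟩ := h.split
  have h3 := dd1_pb_gen k B (((k : ℕ) + 1, b) :: C) 0 (fun b hb => by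
    obtain ⟨h3, h4⟩ := h1 b hb
    change b.1 + b.2 ≤ (k : ℕ) at h4
    exact ⟨by omega, h4⟩) (fun c hc => by
    have h5 := h2 c hc
    change (k : ℕ) + 1 ≤ c.1 at h5
    omega)
  rw [zero_add] at h3
  rw [h3]
  refine pb_zero_adj _ _ _ _ fun c hc => ?_
  obtain ⟨h4, h5⟩ := h1 c hc
  change c.1 + c.2 ≤ (k : ℕ) at h5
  omega

/-- `k` is a block of length `1`, and the next block is not adjacent -/
theorem dd1_pb_one (k : Fin m) (B C : List (ℕ × ℕ))
    (h : Good m (B ++ ((k : ℕ), 1) :: C)) (hC : ∀ c ∈ C, c.1 ≠ (k : ℕ) + 1) :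
    dd1 k (pb m (B ++ ((k : ℕ), 1) :: C)) = pb m (B ++ C) := by
  obtain ⟨h1, h2⟩ := h.split
  have h3 := dd1_pb_gen k B C 0 (fun b hb => by
    obtain ⟨h3, h4⟩ := h1 b hb
    change b.1 + b.2 ≤ (k : ℕ) at h4
    exact ⟨by omega, h4⟩) (fun c hc => by
    have h5 := h2 c hc
    change (k : ℕ) + 1 ≤ c.1 at h5
    omega)
  rw [zero_add] at h3
  rw [h3]
  refine pb_zero_gap _ _ _ (fun b hb => (h1 b hb).2) fun c hc => ?_
  have h4 := h2 c hc
  have h5 := hC c hc
  change (k : ℕ) + 1 ≤ c.1 at h4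
  omega

theorem pb_homog_aux (B : List (ℕ × ℕ)) :
    (pb m B).IsHomogeneous (B.map Prod.snd).sum := by
  match B with
  | [] => rw [pb_nil]; exact isHomogeneous_one _ _
  | [b] =>
    rw [pb_single]
    simpa using hz_homog (m := m) (b.1 + 1) b.2
  | b :: c :: L =>
    have i1 := pb_homog_aux (c :: L)
    have i2 := pb_homog_aux ((b.1, b.2 + c.2) :: L)
    have h1 := (hz_homog (m := m) (b.1 + 1) b.2).mul i1
    rw [pb_cons]
    have e1 : ((b :: c :: L).map Prod.snd).sum = b.2 + ((c :: L).map Prod.snd).sum := by simp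
    have e2 : (((b.1, b.2 + c.2) :: L).map Prod.snd).sum = b.2 + ((c :: L).map Prod.snd).sum := by
      simp [add_assoc]
    rw [e1]
    refine h1.sub ?_
    split_ifs
    · rw [e2] at i2
      exact i2
    · exact isHomogeneous_zero _ _ _
termination_by B.length

theorem pb_homog (B : List (ℕ × ℕ)) (h : Good m B) :
    (pb m B).IsHomogeneous (B.map Prod.snd).sum := pb_homog_aux B

end H50R
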