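import Pool.Agent.Helper10.CSB.Q3

/-!
# Positivity of `T2`

`T2(a) = r_{a-1} C'_1 + (A'_a C'_1 - A'_{a+1}) + ∑ (A_{a-1} (C \ {l})_1 - A_a) σ_{ql}`, where
`r_k = A_k B_1 - A_{k+1}`.
-/

namespace H50R

open H45C Equiv

variable {α : Type*} [DecidableEq α]

theorem T2_pos {X A B C : Finset α} {q : α} (hqA : q ∈ A) (hAB : A ⊆ B) (hBC : B ⊆ C)
    (hq : q ∈ X) {a : ℤ} (h1 : (((B \ A) ∩ X).card : ℤ) + 1 ≤ a)
    (hC : (((C \ A) ∩ X).card : ℤ) ≤ a) {z : Wd α} (hz : z ∈ WS X) (hn : WN z) :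
    WN (T2 X A B C q a z) := by
  have hAC := hAB.trans hBC
  have hy : Hop (C.erase q) 1 z ∈ WS X := Hop_mem _ _ hz
  have hny : WN (Hop (C.erase q) 1 z) := WN_Hop _ _ hz hn
  have hid := Hop_id1 hqA hAB hq a hy
  have a1 : a - 1 + 1 = a := by ring
  -- the first bracket
  have p1 := two_pos hAB (a := a - 1) (b := 1) (by omega) (by norm_num) (by omega) hy hny
  rw [a1] at p1
  -- the second bracket
  have g2 : (((C.erase q \ A.erase q) ∩ X).card : ℤ) ≤ a := by
    refine le_trans ?_ hC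
    refine Int.ofNat_le.2 (Finset.card_le_card (Finset.inter_subset_inter_right ?_))
    intro x hx
    rw [Finset.mem_sdiff, Finset.mem_erase, Finset.mem_erase] at hx
    exact Finset.mem_sdiff.2 ⟨hx.1.2, fun h' => hx.2 ⟨hx.1.1, h'⟩⟩
  have p2 := two_pos (Finset.erase_subset_erase q hAC) (a := a) (b := 1) (by omega)
    (by norm_num) g2 hz hn
  -- the sum
  have p3 : WN (∑ l ∈ (B \ A) ∩ X, (Hop A (a - 1) (Hop (C.erase l) 1 (rl (swap q l) z)) -
      Hop A a (rl (swap q l) z))) := by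
    refine WN.sum _ _ fun l hl => ?_
    rw [Finset.mem_inter, Finset.mem_sdiff] at hl
    have hlC : l ∈ C := hBC hl.1.1
    have hAl : A ⊆ C.erase l := fun x hx =>
      Finset.mem_erase.2 ⟨fun h' => hl.1.2 (h' ▸ hx), hAC hx⟩
    have g3 : (((C.erase l \ A) ∩ X).card : ℤ) + 1 ≤ ((C \ A) ∩ X).card := by
      have e1 : (C.erase l \ A) ∩ X = ((C \ A) ∩ X).erase l := by
        ext x
        simp only [Finset.mem_inter, Finset.mem_sdiff, Finset.mem_erase]
        tauto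
      have e2 : l ∈ (C \ A) ∩ X :=
        Finset.mem_inter.2 ⟨Finset.mem_sdiff.2 ⟨hlC, hl.1.2⟩, hl.2⟩
      rw [e1]
      exact_mod_cast (Finset.card_erase_add_one e2).le
    have t := two_pos hAl (a := a - 1) (b := 1) (by omega) (by norm_num) (by omega)
      (rl_swap_mem hq hl.2 hz) (WN_rl (swap q l) hn)
    rwa [a1] at t
  have e : ∀ l ∈ (B \ A) ∩ X, Hop A (a - 1) (Hop (C.erase l) 1 (rl (swap q l) z)) =
      Hop A (a - 1) (rl (swap q l) (Hop (C.erase q) 1 z)) := by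
    intro l hl
    rw [Finset.mem_inter, Finset.mem_sdiff] at hl
    have hlC : l ∈ C := hBC hl.1.1
    have hlq : l ≠ q := fun h' => hl.1.2 (h' ▸ hqA)
    congr 1
    symm
    refine rl_gen _ _ _ ?_ 1 hz
    intro x hx
    rcases eq_or_ne x q with rfl | hxq
    · rw [swap_apply_left]
      exact ⟨fun h' => absurd h' (Finset.notMem_erase _ _),
        fun h' => absurd h' (Finset.notMem_erase _ _)⟩
    · rcases eq_or_ne x l with rfl | hxl
      · rw [swap_apply_right]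
        exact ⟨fun _ => Finset.mem_erase.2 ⟨hlq.symm, hAC hqA⟩,
          fun _ => Finset.mem_erase.2 ⟨hlq, hlC⟩⟩
      · rw [swap_apply_of_ne_of_ne hxq hxl, Finset.mem_erase, Finset.mem_erase]
        exact ⟨fun h' => ⟨hxl, h'.2⟩, fun h' => ⟨hxq, h'.2⟩⟩
  have key := WN.add (WN.add p1 p2) p3
  have hT : T2 X A B C q a z =
      (Hop A (a - 1) (Hop B 1 (Hop (C.erase q) 1 z)) - Hop A a (Hop (C.erase q) 1 z)) +
      (Hop (A.erase q) a (Hop (C.erase q) 1 z) - Hop (A.erase q) (a + 1) z) +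
      ∑ l ∈ (B \ A) ∩ X, (Hop A (a - 1) (Hop (C.erase l) 1 (rl (swap q l) z)) -
        Hop A a (rl (swap q l) z)) := by
    unfold T2
    rw [Finset.sum_sub_distrib, Finset.sum_congr rfl e, hid]
    abel
  rw [hT]
  exact key

end H50R
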